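import Pool.Agent.L7h3.GL.Stm
import Pool.Agent.L7h52.GL.Rich

set_option autoImplicit false

/-! Project GL, part GOOD. -/

namespace Pool.Agent.L7h3.GL
open Cardinal

theorem head_le_of_mem {L : Type} [CompleteLattice L] : ∀ (l : List L) (a : L), l.head? = some a →
    l.IsChain (· ⋖ ·) → ∀ z ∈ l, a ≤ z := by
  intro l
  induction l with
  | nil => intro a h; simp at h
  | cons x l ih =>
    intro a h hc z hz
    simp only [List.head?_cons, Option.some.injEq] at h
    subst h
    rcases List.mem_cons.1 hz with e | e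
    · exact le_of_eq e.symm
    · cases l with
      | nil => simp at e
      | cons y l' =>
        rw [List.isChain_cons_cons] at hc
        exact hc.1.le.trans (ih y rfl hc.2 z e)

theorem s_GOOD (h1 : S_GCON) (h2 : S_LIFT) (hR : S_RICH) (h4 : S_GRD) : S_GOOD := by
  intro L _ ρ hρ b T B hT hinf hBT hBc hLB hcon
  have hκ : ℵ₀ ≤ #T := Cardinal.infinite_iff.1 hinf.to_subtype
  obtain ⟨p, hp, hd⟩ := hLB
  obtain ⟨W, hW⟩ : ∃ W : Set L, W = ⋃ x ∈ B, {z | z ∈ p x} := ⟨_, rfl⟩
  have hWc : #W < #T := by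
    by_cases hBf : B.Finite
    · have : W.Finite := by
        rw [hW]
        exact hBf.biUnion fun x _ => List.finite_toSet (p x)
      exact (Cardinal.lt_aleph0_iff_set_finite.2 this).trans_le hκ
    · have hBi : ℵ₀ ≤ #B := Cardinal.infinite_iff.1 (Set.Infinite.to_subtype hBf)
      refine lt_of_le_of_lt ?_ hBc
      rw [hW]
      refine (Cardinal.mk_biUnion_le _ _).trans ?_
      refine (mul_le_mul' le_rfl (ciSup_le' fun x => ?_)).trans (Cardinal.mul_aleph0_eq hBi).le
      exact (Cardinal.lt_aleph0_iff_set_finite.2 (List.finite_toSet (p x.1))).le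
  have hI : #(T \ B : Set L) ≤ #T := Cardinal.mk_le_mk_of_subset fun a ha => ha.1
  have hrec : ∀ x ∈ T \ B, ∃ K : Set (List L), #T ≤ #K ∧
      (∀ l ∈ K, ∀ l' ∈ K, l ≠ l' → List.Disjoint l l') ∧
      ∀ l ∈ K, (∃ w ∈ Con x T, Pc (tp x (Con x T)) w l) ∧ ∀ z ∈ l, Gen x (Con x T) z := by
    intro x hx
    obtain ⟨g1, g2, g3⟩ := h1 L ρ hρ b T x hT hx.1
    have c1 := hcon x hx.1 hx.2
    have c2 : (Con x T).Infinite := by
      rw [← Set.infinite_coe_iff, Cardinal.infinite_iff, c1]
      exact hκ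
    obtain ⟨U, hU, hUc, p, hp, hd⟩ := hR L ρ hρ x (Con x T) g1 c2
    refine ⟨p '' U, ?_, ?_, ?_⟩
    · have hinj : Set.InjOn p U := by
        intro a ha a' ha' h
        have e1 := (hp a ha).1.1
        have e2 := (hp a' ha').1.1
        rw [h, e2] at e1
        exact (Option.some.inj e1).symm
      rw [Cardinal.mk_image_eq_of_injOn _ _ hinj, hUc, c1]
    · rintro _ ⟨a, ha, rfl⟩ _ ⟨a', ha', rfl⟩ hne
      exact hd a ha a' ha' fun h => hne (by rw [h])
    · rintro _ ⟨a, ha, rfl⟩
      exact ⟨⟨a, hU ha, (hp a ha).1⟩, (hp a ha).2⟩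
  choose! K hK1 hK2 hK3 using hrec
  obtain ⟨q, hq, hdq⟩ := h4 L (T \ B) W #T K hκ hI hWc
    fun i hi => ⟨hK1 i hi, hK2 i hi⟩
  have key : ∀ u ∈ T \ B, ∀ v ∈ T, u ≠ v → v ∉ q u := by
    intro u hu v hv huv hm
    have g := (hK3 u hu (q u) (hq u hu).1).2 v hm
    unfold Gen at g
    have g' : u ≤ v := by
      rw [g]
      exact le_sup_left
    exact huv (Pool.Agent.L7h52.GL.eq_of_le (hT u hu.1) (hT v hv) g')
  have keyB : ∀ u ∈ B, ∀ v ∈ T, u ≠ v → v ∉ p u := by
    intro u hu v hv huv hm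
    exact huv (Pool.Agent.L7h52.GL.eq_of_le (hT u (hBT hu)) (hT v hv)
      (head_le_of_mem _ u (hp u hu).1.1 (hp u hu).1.2.1 v hm))
  have hmix : ∀ x ∈ B, ∀ y ∈ T, y ∉ B → List.Disjoint (p x) (y :: q y) := by
    intro x hx y hy hyB z hz hz'
    have hne : x ≠ y := fun h => hyB (h ▸ hx)
    rcases List.mem_cons.1 hz' with e | e
    · rw [e] at hz
      exact keyB x hx y hy hne hz
    · refine (hq y ⟨hy, hyB⟩).2 z e ?_
      rw [hW]
      exact Set.mem_biUnion hx hz
  classical
  refine ⟨fun x => if x ∈ B then p x else x :: q x, fun x hx => ?_, fun x hx y hy hne => ?_⟩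
  · by_cases hxB : x ∈ B
    · simp only [hxB, if_true]
      exact hp x hxB
    · simp only [hxB, if_false]
      obtain ⟨⟨w, hw, hP⟩, hG⟩ := hK3 x ⟨hx, hxB⟩ (q x) (hq x ⟨hx, hxB⟩).1
      exact h2 L ρ hρ b T x w (q x) hT hx hw hP hG
  · by_cases hxB : x ∈ B
    · by_cases hyB : y ∈ B
      · simp only [hxB, hyB, if_true]
        exact hd x hxB y hyB hne
      · simp only [hxB, hyB, if_true, if_false]
        exact hmix x hxB y hy hyB
    · by_cases hyB : y ∈ B
      · simp only [hxB, hyB, if_true, if_false]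
        exact (hmix y hyB x hx hxB).symm
      · simp only [hxB, hyB, if_false]
        intro z hz hz'
        rcases List.mem_cons.1 hz with e | e
        · rcases List.mem_cons.1 hz' with e' | e'
          · exact hne (e.symm.trans e')
          · rw [e] at e'
            exact key y ⟨hy, hyB⟩ x hx (Ne.symm hne) e'
        · rcases List.mem_cons.1 hz' with e' | e'
          · rw [e'] at e
            exact key x ⟨hx, hxB⟩ y hy hne e
          · exact hdq x ⟨hx, hxB⟩ y ⟨hy, hyB⟩ hne e e'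

end Pool.Agent.L7h3.GL
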