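import Pool.Agent.L7h3.GL.Stm

namespace Pool.Agent.L7h3.GL
open Cardinal

theorem s_RNK : S_RNK := by
  intro L _ _ r hr
  have hfin : ∀ x : L, Order.height x ≠ ⊤ := by
    intro x h
    have h1 : Order.height x ≤ Order.height (⊤ : L) := Order.height_mono le_top
    rw [h, hr] at h1
    exact absurd h1 (by simp)
  refine ⟨fun x => (Order.height x).toNat, ⟨fun x y hxy => ?_, fun c x y hcx hcy hxy => ?_⟩⟩
  · have h1 : Order.height x < Order.height y :=
      Order.height_strictMono hxy (lt_top_iff_ne_top.2 (hfin x))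
    lift Order.height x to ℕ using hfin x with m
    lift Order.height y to ℕ using hfin y with n
    simpa using h1
  · have h1 : x ⊓ y ⋖ x := by
      have h2 : c ≤ x ⊓ y := le_inf hcx.le hcy
      have h3 : x ⊓ y < x := lt_of_le_of_ne inf_le_left fun h => hxy (inf_eq_left.1 h)
      rcases eq_or_lt_of_le h2 with h4 | h4
      · rwa [← h4]
      · exact absurd h3 (hcx.2 h4)
    have h2 := covBy_sup_of_inf_covBy_left h1
    rwa [sup_comm] at h2

theorem inj_aux {L : Type} [CompleteLattice L] {ρ : L → ℕ} (hρ : Rk ρ) {b x w a a' : L}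
    (hx : b ⋖ x) (ha : b ⋖ a) (ha' : b ⋖ a') (haw : a ≤ w) (haw' : a' ≤ w) (hxw : ¬ x ≤ w)
    (h : x ⊔ a = x ⊔ a') : a = a' := by
  by_contra hne
  have h1 : ¬ x ≤ a := fun h => hxw (h.trans haw)
  have h2 := hρ.sm b x a hx ha.le h1
  have h3 : a < a ⊔ a' := by
    refine lt_of_le_of_ne le_sup_left fun h4 => ?_
    have h5 : a' ≤ a := by rw [h4]; exact le_sup_right
    rcases eq_or_lt_of_le h5 with h6 | h6
    · exact hne h6.symm
    · exact ha.2 ha'.lt h6
  have h4 : a ⊔ a' ≤ a ⊔ x := by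
    refine sup_le le_sup_left ?_
    rw [sup_comm, h]
    exact le_sup_right
  rcases eq_or_lt_of_le h4 with h5 | h5
  · apply hxw
    calc x ≤ a ⊔ x := le_sup_right
      _ = a ⊔ a' := h5.symm
      _ ≤ w := sup_le haw haw'
  · exact h2.2 h3 h5

theorem s_LINA : S_LINA := by
  intro L _ ρ hρ b T x w hT hx hxw
  refine Cardinal.mk_le_of_injective (f := fun a : Bel T w => (⟨x ⊔ a.1, a.1, a.2.1, ?_, rfl⟩ : Con x T)) ?_
  · intro h
    exact hxw (h ▸ a.2.2)
  · intro a a' h
    have h1 : x ⊔ a.1 = x ⊔ a'.1 := congrArg Subtype.val h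
    exact Subtype.ext (inj_aux hρ (hT x hx) (hT _ a.2.1) (hT _ a'.2.1) a.2.2 a'.2.2 hxw h1)

end Pool.Agent.L7h3.GL
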