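import Pool.Agent.L7h3.GL.Main
import Pool.Agent.L7h3.GL.Small
import Pool.Agent.L7h3.GL.Good
import Pool.Agent.L7h25.GL.CNT
import Pool.Agent.L7h76.GL.Cut
import Pool.Agent.L7h56.GL.Del
import Pool.Agent.L7h89.GL.Ex
import Pool.Agent.L7h37.GL.FG
import Pool.Agent.L7h21.GL.Fin
import Pool.Agent.L7h66.GL.Finq
import Pool.Agent.L7h53.GL.Fr
import Pool.Agent.L7h9.GL.Gcon
import Pool.Agent.L7h29.GL.Grd
import Pool.Agent.L7h5.GL.Linb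
import Pool.Agent.L7h64.GL.Ma
import Pool.Agent.L7h12.GL.Mb
import Pool.Agent.L7h73.GL.Men
import Pool.Agent.L7h52.GL.Rich

namespace Pool.Agent.L7h3.GL

theorem geom' (hGOOD : S_GOOD) (L : Type) [CompleteLattice L] [IsAtomistic L] [IsUpperModularLattice L] [Infinite L]
    (r : ℕ) (hr : Order.height (⊤ : L) = (r : ℕ∞)) :
    ∃ M : Set (Set L),
      (∀ m ∈ M,
        (∀ x ∈ m, x ≠ ⊥ ∧ x ≠ ⊤) ∧ IsChain (· ≤ ·) m ∧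
        ∀ m' : Set L, (∀ x ∈ m', x ≠ ⊥ ∧ x ≠ ⊤) → IsChain (· ≤ ·) m' → m ⊆ m' → m' = m) ∧
      M.PairwiseDisjoint id ∧
      ∀ x : L, IsAtom x → ∃ m ∈ M, x ∈ m := by
  have hLINB : S_LINB := Pool.Agent.L7h5.GL.s_LINB s_LINA
  have hLIFT : S_LIFT := Pool.Agent.L7h9.GL.s_LIFT Pool.Agent.L7h9.GL.s_GCON
  have hCUT : S_CUT := Pool.Agent.L7h76.GL.s_CUT Pool.Agent.L7h9.GL.s_GCON hLIFT
    Pool.Agent.L7h25.GL.s_CNT Pool.Agent.L7h56.GL.s_DEL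
  have hFINQ : S_FINQ := Pool.Agent.L7h66.GL.s_FINQ hCUT Pool.Agent.L7h73.GL.s_MEN
  have hMA : S_MA := Pool.Agent.L7h64.GL.s_MA s_LINA hLINB Pool.Agent.L7h53.GL.s_FR
    Pool.Agent.L7h89.GL.s_EX hGOOD
  have hMB : S_MB := Pool.Agent.L7h12.GL.s_MB s_LINA hLINB Pool.Agent.L7h53.GL.s_FR
    Pool.Agent.L7h37.GL.s_FG
  exact final s_RNK hFINQ hMA hMB Pool.Agent.L7h21.GL.s_FIN L r hr

theorem rich : S_RICH :=
  Pool.Agent.L7h52.GL.s_RICH Pool.Agent.L7h9.GL.s_GCON (Pool.Agent.L7h9.GL.s_LIFT Pool.Agent.L7h9.GL.s_GCON)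
    Pool.Agent.L7h53.GL.s_FR Pool.Agent.L7h29.GL.s_GRD (Pool.Agent.L7h5.GL.s_LINB s_LINA)

theorem geom (L : Type) [CompleteLattice L] [IsAtomistic L] [IsUpperModularLattice L] [Infinite L]
    (r : ℕ) (hr : Order.height (⊤ : L) = (r : ℕ∞)) :
    ∃ M : Set (Set L),
      (∀ m ∈ M,
        (∀ x ∈ m, x ≠ ⊥ ∧ x ≠ ⊤) ∧ IsChain (· ≤ ·) m ∧
        ∀ m' : Set L, (∀ x ∈ m', x ≠ ⊥ ∧ x ≠ ⊤) → IsChain (· ≤ ·) m' → m ⊆ m' → m' = m) ∧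
      M.PairwiseDisjoint id ∧
      ∀ x : L, IsAtom x → ∃ m ∈ M, x ∈ m :=
  geom' (s_GOOD Pool.Agent.L7h9.GL.s_GCON (Pool.Agent.L7h9.GL.s_LIFT Pool.Agent.L7h9.GL.s_GCON) rich
    Pool.Agent.L7h29.GL.s_GRD) L r hr

end Pool.Agent.L7h3.GL
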