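import Pool.Agent.L7h3.GL.Stm

/-! Project GL: assembly from the parts. -/

namespace Pool.Agent.L7h3.GL
open Cardinal

theorem linked (hF : S_FINQ) (hA : S_MA) (hB : S_MB) (L : Type) [CompleteLattice L] (ρ : L → ℕ)
    (hρ : Rk ρ) (hN : ∃ N, ∀ x, ρ x ≤ N) (b : L) :
    ∀ (κ : Cardinal.{0}) (T : Set L), #T = κ → Cv b T → T.Nontrivial → Lk b T T := by
  intro κ
  induction κ using Cardinal.lt_wf.induction with
  | _ κ ih =>
    intro T hT hc hn
    by_cases hfin : T.Finite
    · exact hF L ρ hρ b T hc hfin hn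
    · have hinf : T.Infinite := hfin
      by_cases h : #{x // x ∈ T ∧ #(Con x T) < #T} < #T
      · exact hA L ρ hρ b T hc hinf h
      · exact hB L ρ hρ hN b T hc hinf h fun T' hT' hlt hn' =>
          ih #T' (hT ▸ hlt) T' rfl (fun a ha => hc a (hT' ha)) hn'

theorem final (hR : S_RNK) (hF : S_FINQ) (hA : S_MA) (hB : S_MB) (hFIN : S_FIN)
    (L : Type) [CompleteLattice L] [IsAtomistic L] [IsUpperModularLattice L] [Infinite L]
    (r : ℕ) (hr : Order.height (⊤ : L) = (r : ℕ∞)) :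
    ∃ M : Set (Set L),
      (∀ m ∈ M,
        (∀ x ∈ m, x ≠ ⊥ ∧ x ≠ ⊤) ∧ IsChain (· ≤ ·) m ∧
        ∀ m' : Set L, (∀ x ∈ m', x ≠ ⊥ ∧ x ≠ ⊤) → IsChain (· ≤ ·) m' → m ⊆ m' → m' = m) ∧
      M.PairwiseDisjoint id ∧
      ∀ x : L, IsAtom x → ∃ m ∈ M, x ∈ m := by
  obtain ⟨ρ, hρ⟩ := hR L r hr
  refine hFIN L (linked hF hA hB L ρ hρ ⟨ρ ⊤, fun x => ?_⟩ ⊥ _ _ rfl ?_ ?_)
  · rcases eq_or_lt_of_le (le_top : x ≤ ⊤) with h | h
    · rw [h]
    · exact (hρ.mono x ⊤ h).le
  · intro a ha
    exact bot_covBy_iff.2 ha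
  · by_contra hn
    rw [Set.not_nontrivial_iff] at hn
    have key : ∀ z : L, z = ⊥ ∨ z = ⊤ := by
      intro z
      by_cases hz : ∃ a, IsAtom a ∧ a ≤ z
      · right
        obtain ⟨a, ha, haz⟩ := hz
        have h1 : sSup {a : L | IsAtom a} = ⊤ := sSup_atoms_eq_top
        have h2 : sSup {a : L | IsAtom a} ≤ z := by
          refine sSup_le fun c hc => ?_
          rw [hn hc ha]
          exact haz
        rw [h1] at h2
        exact top_le_iff.1 h2
      · left
        have h1 := sSup_atoms_le_eq z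
        rw [← h1]
        have : {a : L | IsAtom a ∧ a ≤ z} = ∅ := by
          ext a
          simp only [Set.mem_setOf_eq, Set.mem_empty_iff_false, iff_false]
          exact fun h => hz ⟨a, h⟩
        rw [this, sSup_empty]
    have hf : Finite L := by
      refine Set.finite_univ_iff.1 ((Set.toFinite ({⊥, ⊤} : Set L)).subset fun z _ => ?_)
      rcases key z with h | h
      · left; exact h
      · right; exact h
    exact not_finite L

end Pool.Agent.L7h3.GL
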