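import Mathlib

/-! Project GL (MP_246c79_co, FULL ANSWER yes, frozen S07685): disjoint maximal chains through all atoms of an
infinite geometric lattice. Everything happens inside the lattice `L`: `b` is an element and `T` a set of elements
covering `b`; `Gen b T` are the elements generated by `T`, `tp b T` the largest one. -/

namespace Pool.Agent.L7h3.GL
open Cardinal

/-- finite height and semimodularity -/
structure Rk {L : Type} [CompleteLattice L] (ρ : L → ℕ) : Prop where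
  mono : ∀ x y, x < y → ρ x < ρ y
  sm : ∀ c x y : L, c ⋖ x → c ≤ y → ¬ x ≤ y → y ⋖ y ⊔ x

/-- `T` consists of elements covering `b` -/
def Cv {L : Type} [CompleteLattice L] (b : L) (T : Set L) : Prop := ∀ a ∈ T, b ⋖ a

/-- the largest element generated by `T` -/
def tp {L : Type} [CompleteLattice L] (b : L) (T : Set L) : L := b ⊔ sSup T

/-- `z` is generated by `T` over `b` -/
def Gen {L : Type} [CompleteLattice L] (b : L) (T : Set L) (z : L) : Prop :=
  z = b ⊔ sSup {a | a ∈ T ∧ a ≤ z}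

/-- `l` is a saturated chain from `a` to an element covered by `t` -/
def Pc {L : Type} [CompleteLattice L] (t a : L) (l : List L) : Prop :=
  l.head? = some a ∧ l.IsChain (· ⋖ ·) ∧ ∀ z, l.getLast? = some z → z ⋖ t

/-- disjoint saturated chains starting at the elements of `U`, in the part generated by `T` -/
def Lk {L : Type} [CompleteLattice L] (b : L) (T U : Set L) : Prop :=
  ∃ p : L → List L, (∀ a ∈ U, Pc (tp b T) a (p a) ∧ ∀ z ∈ p a, Gen b T z) ∧
    ∀ a ∈ U, ∀ a' ∈ U, a ≠ a' → List.Disjoint (p a) (p a')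

/-- contraction: the elements `x ⊔ a`, `a ∈ T`, `a ≠ x` -/
def Con {L : Type} [CompleteLattice L] (x : L) (T : Set L) : Set L := {w | ∃ a ∈ T, a ≠ x ∧ w = x ⊔ a}

/-- the elements of `T` below `w` -/
def Bel {L : Type} [CompleteLattice L] (T : Set L) (w : L) : Set L := {a | a ∈ T ∧ a ≤ w}

/-- RNK (30 lines). `ρ x = (Order.height x).toNat`; `sm` is `covBy_sup_of_inf_covBy_left/right`: `c ≤ x ⊓ y < x` gives `x ⊓ y = c`. -/
def S_RNK : Prop := ∀ (L : Type) [CompleteLattice L] [IsUpperModularLattice L] (r : ℕ),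
  Order.height (⊤ : L) = (r : ℕ∞) → ∃ ρ : L → ℕ, Rk ρ

/-- GCON (80 lines). Contraction: `x ⋖ x ⊔ a` by `sm` (`a ≤ x` would give `a = x`). Top: both are the join of `b` and `T`. If `Gen x (Con x T) z`, then
`z` is the join of `x` and of the `x ⊔ a ≤ z`, so the join of `b` and the `a ∈ T`, `a ≤ z` (`x` is one of them). -/
def S_GCON : Prop := ∀ (L : Type) [CompleteLattice L] (ρ : L → ℕ), Rk ρ → ∀ (b : L) (T : Set L) (x : L),
  Cv b T → x ∈ T → Cv x (Con x T) ∧ tp x (Con x T) = tp b T ∧ ∀ z, Gen x (Con x T) z → Gen b T z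

/-- LIFT (50 lines, may use S_GCON). A chain above `x` in the contraction gives a chain starting at `x`: `x ⋖ w` for `w ∈ Con x T`, `Gen b T x`. -/
def S_LIFT : Prop := ∀ (L : Type) [CompleteLattice L] (ρ : L → ℕ), Rk ρ → ∀ (b : L) (T : Set L) (x w : L)
  (l : List L), Cv b T → x ∈ T → w ∈ Con x T → Pc (tp x (Con x T)) w l →
  (∀ z ∈ l, Gen x (Con x T) z) → Pc (tp b T) x (x :: l) ∧ ∀ z ∈ x :: l, Gen b T z

/-- CNT (70 lines; Conway's argument). Suppose `m = |S| < n = |T|`. Over the pairs `(x, z)` not incident: `s_x / (m - s_x) ≥ t_z / (n - t_z)`, strictly as `s_x > 0`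
(`s_x (n - t_z) - t_z (m - s_x) = s_x n - t_z m > 0` because `s_x ≥ t_z`, `n > m`, `s_x > 0`). The sum of the left sides is the sum of the `s_x` over the `x` with `s_x < m`, at most the number of
incident pairs; the sum of the right sides is the sum of all `t_z` (all `t_z < n`), the number of incident pairs. Contradiction, as there is a pair. -/
def S_CNT : Prop := ∀ (α β : Type) (T : Finset α) (S : Finset β) (I : α → β → Prop) [DecidableRel I],
  S.Nonempty → (∀ z ∈ S, ∃ x ∈ T, ¬ I x z) →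
  (∀ x ∈ T, ∀ z ∈ S, ¬ I x z → (T.filter fun y => I y z).card ≤ (S.filter fun y => I x y).card ∧
    0 < (S.filter fun y => I x y).card) → T.card ≤ S.card

/-- DEL (120 lines). Deletion step of CUT. `q ∈ T ∩ S`, `T' = T \ {q}`, `t' = tp b T'`. (1) `t' = t`: every chain for `T'` is one for `T`, and does not contain `q`, so `S \ {q}` is a cut for `T'`.
(2) `t' < t`, so `q ≰ t'`, `t' ⋖ t = t' ⊔ q`; `t' ∉ S`: for a chain `l` for `T'` the list `l ++ [t']` is a chain for `T`; so `S \ {q}` is a cut for `T'`.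
(3) `t' ∈ S`: `π z = b ⊔ sSup {a ∈ T' | a ≤ z}`, `S* = π '' (S \ {q, t'})` is a cut for `T'`: if `l = (g_1, ..., g_k)` is a chain for `T'` then `l ++ [g_k ⊔ q]` is a chain for `T` (`g_k ⋖ g_k ⊔ q ⋖ t`
by `sm`), `π g_i = g_i`, `π (g_k ⊔ q) = g_k` (if `a ∈ T'`, `a ≤ g_k ⊔ q`, `a ≰ g_k`, then `g_k ⊔ a = g_k ⊔ q`, so `q ≤ t'`). -/
def S_DEL : Prop := ∀ (L : Type) [CompleteLattice L] [DecidableEq L] (ρ : L → ℕ), Rk ρ → ∀ (b q : L) (T S : Finset L),
  Cv b (T : Set L) → q ∈ T → q ∈ S → 2 < T.card →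
  (∀ a ∈ T, ∀ l, Pc (tp b T) a l → (∀ z ∈ l, Gen b (T : Set L) z) → ∃ z ∈ l, z ∈ S) →
  ∃ S' : Finset L, S'.card + 1 ≤ S.card ∧
    ∀ a ∈ T.erase q, ∀ l, Pc (tp b (T.erase q : Finset L)) a l →
      (∀ z ∈ l, Gen b ((T.erase q : Finset L) : Set L) z) → ∃ z ∈ l, z ∈ S'

/-- CUT (200 lines, from GCON, LIFT, CNT, DEL). Induction on `|T|`. We may remove from `S` the elements which are not generated or not `< t`. If some `q ∈ T` is in `S`: for `|T| > 2` DEL and induction; for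
`T = {a, q}`: `[a]` and `[q]` are chains (`a ⋖ a ⊔ q`), so both are in `S`. If `T ∩ S = ∅`: for `x ∈ T` the set `{z ∈ S | x ≤ z}` is a cut for `(x, Con x T)` (LIFT; all elements of the chain are `≥ x`); `Con x T` has at least
two elements (otherwise `x ⋖ t`, `[x]` is a chain, `x ∈ S`), and fewer than `T`; so `|{z ∈ S | x ≤ z}| ≥ |Con x T|`. If `x ≰ z`, `a ↦ x ⊔ a` is injective on `Bel T z` (`x ⊔ a = x ⊔ a'`, `a ≠ a'`, gives
`x ⊔ a = a ⊔ a' ≤ z`), so `|Bel T z| ≤ |Con x T|`. CNT with `I x z = (x ≤ z)`. -/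
def S_CUT : Prop := ∀ (L : Type) [CompleteLattice L] (ρ : L → ℕ), Rk ρ → ∀ (b : L) (T S : Finset L),
  Cv b (T : Set L) → 2 ≤ T.card →
  (∀ a ∈ T, ∀ l, Pc (tp b T) a l → (∀ z ∈ l, Gen b (T : Set L) z) → ∃ z ∈ l, z ∈ S) → T.card ≤ S.card

/-- MEN (150 lines; Menger's theorem for an acyclic relation, by Hall's theorem). Left vertices `V`, right vertices `(V \ A) ⊕ B`; `z` is joined with itself (if `z ∉ A`), with all `z' ∈ V \ A`, `R z z'`, and with the copy of `z` if `z ∈ B`.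
A left-saturating matching `σ`: from `a ∈ A` follow `σ` (`rk` increases) to an exit; injectivity gives disjointness. Hall: if `X` violates it, `S = (N(X) ∩ V \ X) ∪ (X ∩ B) ∪ (A \ X)` has fewer than `|A|` elements and meets every path. -/
def S_MEN : Prop := ∀ (α : Type) (V A B : Finset α) (R : α → α → Prop) (rk : α → ℕ),
  (∀ x y, R x y → rk x < rk y) → A ⊆ V → B ⊆ V → (∀ x ∈ V, ∀ a ∈ A, ¬ R x a) →
  (∀ S : Finset α, (∀ a ∈ A, ∀ l : List α, l.head? = some a → l.IsChain R → (∀ z ∈ l, z ∈ V) →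
    (∀ z, l.getLast? = some z → z ∈ B) → ∃ z ∈ l, z ∈ S) → A.card ≤ S.card) →
  ∃ p : α → List α, (∀ a ∈ A, (p a).head? = some a ∧ (p a).IsChain R ∧ (∀ z ∈ p a, z ∈ V) ∧
    ∀ z, (p a).getLast? = some z → z ∈ B) ∧ ∀ a ∈ A, ∀ a' ∈ A, a ≠ a' → List.Disjoint (p a) (p a')

/-- FINQ (80 lines, from CUT, MEN). `V` = the finite set of the `z` with `Gen b T z`, `b < z < t`; `A = T`; `B` = those covered by `t`; `R` = `⋖`. -/
def S_FINQ : Prop := ∀ (L : Type) [CompleteLattice L] (ρ : L → ℕ), Rk ρ → ∀ (b : L) (T : Set L),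
  Cv b T → T.Finite → T.Nontrivial → Lk b T T

/-- FG (50 lines). Finite generation: choose the finite subset with the largest `ρ (b ⊔ sSup A₀)`. -/
def S_FG : Prop := ∀ (L : Type) [CompleteLattice L] (ρ : L → ℕ), Rk ρ → (∃ N, ∀ x, ρ x ≤ N) → ∀ (b : L) (A : Set L),
  ∃ A₀ ⊆ A, A₀.Finite ∧ b ⊔ sSup A = b ⊔ sSup A₀

/-- EX (60 lines). A chain from any generated `z < t`: if `z` is not covered by `t` take `a ∈ T`, `a ≰ z`, `z ⋖ z ⊔ a < t`. -/
def S_EX : Prop := ∀ (L : Type) [CompleteLattice L] (ρ : L → ℕ), Rk ρ → ∀ (b : L) (T : Set L) (z : L), Cv b T →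
  b ≤ z → Gen b T z → z < tp b T → ∃ l, Pc (tp b T) z l ∧ ∀ y ∈ l, Gen b T y

/-- FR (100 lines). Frames. Induction on `ρ t - ρ w`. If `w = t` take `p z = [z]`. Otherwise take `c ∈ T`, `c ≰ w`. For `z ∈ Z` put `z' = z ⊔ c`: `z ⋖ z'`, `w ⋖ w ⊔ c`, `z' ⋖ w ⊔ c` (by `sm` from `z ⋖ w`; `w ≰ z'`, otherwise `z < w < w ⊔ c ≤ z'`). The `z'` are
different for different `z` (otherwise `w = z_1 ⊔ z_2 ≤ z'`). Induction for `w ⊔ c` and the `z'`, and add `z` to the list of `z'`: `z_1 ∉ p z_2'` because the elements of it are above `c`. -/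
def S_FR : Prop := ∀ (L : Type) [CompleteLattice L] (ρ : L → ℕ), Rk ρ → ∀ (b : L) (T Z : Set L) (w : L), Cv b T →
  b ≤ w → Gen b T w → (∀ z ∈ Z, z ⋖ w ∧ b ≤ z ∧ Gen b T z) →
  ∃ p : L → List L, (∀ z ∈ Z, Pc (tp b T) z (p z) ∧ ∀ y ∈ p z, Gen b T y ∧ z ≤ y ∧ ¬ w ≤ y) ∧
    ∀ z ∈ Z, ∀ z' ∈ Z, z ≠ z' → List.Disjoint (p z) (p z')

/-- GRD (120 lines). Transfinite choice: well-order `I` in type at most `κ.ord`; at each step fewer than `κ` elements are used (with `W`), each is in at most one list of `K i`. -/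
def S_GRD : Prop := ∀ (L : Type) (I W : Set L) (κ : Cardinal.{0}) (K : L → Set (List L)), ℵ₀ ≤ κ → #I ≤ κ → #W < κ →
  (∀ i ∈ I, κ ≤ #(K i) ∧ ∀ l ∈ K i, ∀ l' ∈ K i, l ≠ l' → List.Disjoint l l') →
  ∃ p : L → List L, (∀ i ∈ I, p i ∈ K i ∧ ∀ z ∈ p i, z ∉ W) ∧ ∀ i ∈ I, ∀ j ∈ I, i ≠ j → List.Disjoint (p i) (p j)

/-- LINA (50 lines). `a ↦ x ⊔ a` is injective on `Bel T w`: if `x ⊔ a = x ⊔ a'`, `a ≠ a'`, then `a ⋖ a ⊔ x` and `a < a ⊔ a' ≤ a ⊔ x`, so `x ≤ a ⊔ a' ≤ w`. -/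
def S_LINA : Prop := ∀ (L : Type) [CompleteLattice L] (ρ : L → ℕ), Rk ρ → ∀ (b : L) (T : Set L) (x w : L), Cv b T → x ∈ T →
  ¬ x ≤ w → #(Bel T w) ≤ #(Con x T)

/-- LINB (70 lines, from LINA). `w = x ⊔ x'`. `a ↦ x ⊔ a` maps `T \ Bel T w` to `Con x T`; for `m = x ⊔ a` (`a ≰ w`) `x' ≰ m`, so the fibre, contained in `Bel T m`, has at most `#(Con x' T)` elements. -/
def S_LINB : Prop := ∀ (L : Type) [CompleteLattice L] (ρ : L → ℕ), Rk ρ → ∀ (b : L) (T : Set L) (x x' : L), Cv b T → x ∈ T → x' ∈ T →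
  x ≠ x' → #{a // a ∈ T ∧ ¬ a ≤ x ⊔ x'} ≤ #(Con x T) * #(Con x' T)

/-- RICH (150 lines, from GCON, LIFT, FR, GRD, LINB). Induction on `ρ t - ρ b`. If all `a ∈ T` are covered by `t`: `p a = [a]`. If for some `x ≠ x'` in `T`, `w = x ⊔ x' ≠ t`, `#(Bel T w) = #T`: FR with `Z = Bel T w` (`a ⋖ w` for
`a ∈ Z`). Otherwise all `x ∈ T` except at most one have `#(Con x T) = #T` (LINB: two exceptions would give `#T ≤ #(Bel T w) + #(Con x T) * #(Con x' T) < #T`); for them induction gives `U_x ⊆ Con x T` of cardinality `#T` with disjoint chains `l`; GRD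
for `K x` = the lists `l` chooses one for each `x`, add `x` (LIFT). (If `w = t` for some `x ≠ x'` then all `a ∈ T` are covered by `t`.) -/
def S_RICH : Prop := ∀ (L : Type) [CompleteLattice L] (ρ : L → ℕ), Rk ρ → ∀ (b : L) (T : Set L), Cv b T → T.Infinite →
  ∃ U ⊆ T, #U = #T ∧ Lk b T U

/-- GOOD (120 lines, from GCON, LIFT, RICH, GRD). If the `x ∈ B` are linked by chains `p`, `#B < #T`, and all the other `x ∈ T` have `#(Con x T) = #T`, then `T` is linked: `W` = the union of the lists `p x`, `x ∈ B`;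
RICH for `(x, Con x T)` gives `K x`, for `x ∈ T \ B`; GRD; add `x` to the list (LIFT). (The elements of the lists other than the first are not in `T`: they do not cover `b`.) -/
def S_GOOD : Prop := ∀ (L : Type) [CompleteLattice L] (ρ : L → ℕ), Rk ρ → ∀ (b : L) (T B : Set L), Cv b T → T.Infinite → B ⊆ T →
  #B < #T → Lk b T B → (∀ x ∈ T, x ∉ B → #(Con x T) = #T) → Lk b T T

/-- MA (120 lines, from LINA, LINB, FR, EX, GOOD). Fewer than `#T` bad elements: `B = {x ∈ T | #(Con x T) < #T}`. If some `w = x ⊔ x'` (`x ≠ x'` in `T`) has `#(Bel T w) = #T`: every `x ∉ Bel T w` has `#(Con x T) = #T` by LINA, so `B ⊆ Bel T w`; FR for `Z = B` (also if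
`w = t`) links `B`; GOOD. If there is no such `w`, then `B` has at most one element by LINB: EX; GOOD. -/
def S_MA : Prop := ∀ (L : Type) [CompleteLattice L] (ρ : L → ℕ), Rk ρ → ∀ (b : L) (T : Set L), Cv b T → T.Infinite →
  #{x // x ∈ T ∧ #(Con x T) < #T} < #T → Lk b T T

/-- MB (200 lines, from LINA, LINB, FR, FG). `#T` bad elements. Take two, `x ≠ x'`, and `w = x ⊔ x'`. `G = {a ∈ T | a ≰ w}` has `#G < #T` by LINB. `Z = Bel T w`, all `z ∈ Z` are covered by `w`. If `w = t`: `p a = [a]`. Otherwise let `X₀ ⊆ Z` be the set of `x`, `x'` and of all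
`z ∈ Z` such that `z ≤ b ⊔ sSup G₀`, `¬ w ≤ b ⊔ sSup G₀` for a finite `G₀ ⊆ G` (each `G₀` gives at most one `z`); `T' = X₀ ∪ G`, `#T' < #T` (finite if `G` is finite), `tp b T' = tp b T`, `Gen b T' ⊆ Gen b T`. `hyp` gives chains for `T'`. For `z ∈ Z \ X₀` take FR for `Z \ X₀`:
the elements `y` of these chains have `z ≤ y`, `¬ w ≤ y`, so they are not in `Gen b T'`: otherwise no element of `X₀` is below `y` (it would be different from `z`, and the join with `z` is `w`), `y = b ⊔ sSup {a ∈ G | a ≤ y} = b ⊔ sSup G₀` by FG, so `z ∈ X₀`. -/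
def S_MB : Prop := ∀ (L : Type) [CompleteLattice L] (ρ : L → ℕ), Rk ρ → (∃ N, ∀ x, ρ x ≤ N) → ∀ (b : L) (T : Set L), Cv b T → T.Infinite →
  ¬ #{x // x ∈ T ∧ #(Con x T) < #T} < #T →
  (∀ T' ⊆ T, #T' < #T → T'.Nontrivial → Lk b T' T') → Lk b T T

/-- FIN (100 lines). From chains for all atoms to the frozen statement S07685: `T` = the atoms, `b = ⊥`, `tp ⊥ T = ⊤`, `M = {m | ∃ a atom, m = {z | z ∈ p a}}`. The set of the elements of a saturated chain from an atom to a coatom is a maximal chain of `L \ {⊥, ⊤}`: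
an element `y` comparable with all elements of the list: by induction along the list (if `y` is above one element and below the next one it is one of them). -/
def S_FIN : Prop := ∀ (L : Type) [CompleteLattice L] [IsAtomistic L], Lk (⊥ : L) {a | IsAtom a} {a | IsAtom a} →
  ∃ M : Set (Set L),
    (∀ m ∈ M,
      (∀ x ∈ m, x ≠ ⊥ ∧ x ≠ ⊤) ∧ IsChain (· ≤ ·) m ∧
      ∀ m' : Set L, (∀ x ∈ m', x ≠ ⊥ ∧ x ≠ ⊤) → IsChain (· ≤ ·) m' → m ⊆ m' → m' = m) ∧
    M.PairwiseDisjoint id ∧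
    ∀ x : L, IsAtom x → ∃ m ∈ M, x ∈ m

end Pool.Agent.L7h3.GL
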